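import Pool.Agent.Work.MP_2a6590_nt.H97B.I.Main
import Pool.Agent.Work.MP_2a6590_nt.H97B.I.Sun
import Pool.Agent.Work.MP_2a6590_nt.H97B.I.Large
import Pool.Agent.Work.MP_2a6590_nt.H97B.I.Atyp
import Pool.Agent.Work.MP_2a6590_nt.H97B.I.Conf
import Pool.Agent.Work.MP_2a6590_nt.H97B.I.Cnt
import Pool.Agent.Work.MP_2a6590_nt.H97B.I.Tot
import Pool.Agent.Work.MP_2a6590_nt.H97B.I.Extr
import Pool.Agent.Work.MP_2a6590_nt.H97B.I.Tri
import Pool.Agent.Work.MP_2a6590_nt.H97B.I.Wt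
import Pool.Agent.Work.MP_2a6590_nt.H97B.I.Lcl
import Pool.Agent.Work.MP_2a6590_nt.H97B.I.Sys

/-!
# MP_2a6590_nt: a valid `n`-element set needs a modulus of at least `(1 - o(1)) 2 ^ n`

The posed bound is `N ≥ 2 ^ n - 2 ^ ⌊log₂ n⌋` and moduli of this size occur, so that the least
modulus is asymptotically equal to `2 ^ n`.
-/

namespace Pool.Agent.Work.MP_2a6590_nt.H97B.Kept

open Finset Pool.Agent.Work.MP_2a6590_nt

/-- `A` is valid mod `N`: among all multisets of `|A|` elements of `A` (with multiplicities `m`),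
only `A` itself has the sum `∑ A`. -/
def Valid (N : ℕ) (A : Finset (ZMod N)) : Prop :=
  ∀ m : ZMod N → ℕ, ∑ a ∈ A, m a = A.card → ∑ a ∈ A, m a • a = ∑ a ∈ A, a → ∀ a ∈ A, m a = 1

theorem vd_of_valid {N : ℕ} {A : Finset (ZMod N)} (h : Valid N A) :
    H97.Vd (fun a : A => (a : ZMod N)) := by
  intro m hm hv
  set m' : ZMod N → ℕ := fun x => if hx : x ∈ A then m ⟨x, hx⟩ else 0 with hm'
  have e : ∀ a : A, m' a = m a := by
    intro a
    rw [hm']
    simp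
  have h1 : ∑ a ∈ A, m' a = A.card := by
    rw [← Finset.sum_coe_sort A m', Finset.sum_congr rfl fun a _ => e a, hm, Fintype.card_coe]
  have h2 : ∑ a ∈ A, m' a • a = ∑ a ∈ A, a := by
    rw [← Finset.sum_coe_sort A fun x => m' x • x, ← Finset.sum_coe_sort A fun x => x]
    have hv' : ∑ i : A, m i • (i : ZMod N) = ∑ i : A, (i : ZMod N) := hv
    rw [← hv']
    exact Finset.sum_congr rfl fun a _ => by rw [e a]
  intro a
  rw [← e a]
  exact h m' h1 h2 a a.2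

/-- For every `ε > 0` and all large `n`: if some `n`-element subset of `ℤ/Nℤ` is valid mod `N`,
then `N ≥ (1 - ε) 2 ^ n`. -/
theorem result : ∀ ε : ℝ, 0 < ε → ∃ n₀ : ℕ, ∀ n : ℕ, n₀ ≤ n → ∀ N : ℕ, 1 ≤ N →
    ∀ A : Finset (ZMod N), A.card = n → Valid N A → (1 - ε) * 2 ^ n ≤ (N : ℝ) := by
  intro ε hε
  have hTot : H97B.S_tot := H97B.prfTot H97B.prfAtyp H97B.prfCnt H97B.prfRegI H97B.prfRegII
  have hLcl : H97B.S_lcl := H97B.prfLcl (H97B.prfLarge H97B.prfBin)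
    (H97B.prfExtr H97B.prfSun) H97B.prfTri H97B.prfWt
  have hMain : H97B.S_main := H97B.prfMain (H97B.prfDesc hLcl H97B.prfConf hTot) H97B.prfConf hTot
  obtain ⟨n₀, hn₀⟩ := hMain ε hε
  refine ⟨n₀, ?_⟩
  intro n hn N hN A hA hV
  have hcard : Fintype.card A = n := by rw [Fintype.card_coe, hA]
  have h := hn₀ A (ℤ × ZMod N) _ N (H97B.prfSys N hN A (vd_of_valid hV)) (by rw [hcard]; exact hn)
  rwa [hcard] at h

end Pool.Agent.Work.MP_2a6590_nt.H97B.Kept
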