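import Pool.Agent.Work.MP_2a6590_nt.H97.Tail

/-!
# MP_2a6590_nt, block B: `N ≥ (1 - o(1)) 2 ^ n` (definitions)

`H` is the group `ℤ × ZMod N` and `e i = (1, a i)`, so that the length of a sum is part of its
value.
-/

namespace Pool.Agent.Work.MP_2a6590_nt.H97B

open Finset Pool.Agent.Work.MP_2a6590_nt.H97

section

variable {ι H : Type} [Fintype ι] [AddCommGroup H]

/-- `g` is a sum with repetitions. -/
def MM (e : ι → H) (g : H) : Prop := ∃ m : ι → ℕ, val e m = g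

/-- A valid system with modulus `N`. -/
structure Sys (e : ι → H) (N : ℕ) : Prop where
  uni : ∀ m : ι → ℕ, val e m = sg e univ → ∀ i, m i = 1
  cnt : ∀ (b : ι) (W : Finset H), (∀ w ∈ W, MM e w ∧ ¬ MM e (w - e b)) → W.card ≤ N
  tor : ∀ i j k : ι, 2 • e i = 2 • e j → 2 • e i = 2 • e k → i = j ∨ i = k ∨ j = k
  len : ∃ f : H →+ ℤ, ∀ i, f (e i) = 1

end

section

variable {ι H : Type}

/-- Disjoint local sets. -/
structure Loc (I : Finset ι) (V : ι → Finset ι) (s : ℕ) : Prop where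
  self : ∀ a ∈ I, a ∈ V a
  card : ∀ a ∈ I, (V a).card ≤ s
  disj : ∀ a ∈ I, ∀ b ∈ I, a ≠ b → Disjoint (V a) (V b)

/-- The data of a type. -/
structure TyD (ι H : Type) where
  /-- the constant -/
  c : H
  /-- the positive part -/
  Φ : ι → Finset ι
  /-- the negative part -/
  Ψ : ι → Finset ι
  /-- the size of `Φ a` -/
  φ : ℕ
  /-- the size of `Ψ a` -/
  ψ : ℕ

/-- `t` is a type on the index set `I` with local sets `V`. -/
structure IsTy [AddCommGroup H] (e : ι → H) (I : Finset ι) (V : ι → Finset ι) (t : TyD ι H) :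
    Prop where
  eq : ∀ a ∈ I, 2 • e a + sg e (t.Ψ a) = t.c + sg e (t.Φ a)
  dj : ∀ a ∈ I, Disjoint (t.Φ a) (t.Ψ a)
  sΦ : ∀ a ∈ I, t.Φ a ⊆ V a
  sΨ : ∀ a ∈ I, t.Ψ a ⊆ V a
  nΦ : ∀ a ∈ I, a ∉ t.Φ a
  nΨ : ∀ a ∈ I, a ∉ t.Ψ a
  kΦ : ∀ a ∈ I, (t.Φ a).card = t.φ
  kΨ : ∀ a ∈ I, (t.Ψ a).card = t.ψ

/-- `t < t'` -/
def TLt (I : Finset ι) (t t' : TyD ι H) : Prop :=
  ∀ a ∈ I, Disjoint (t.Ψ a) (t'.Φ a) ∧ ¬ Disjoint (t.Φ a) (t'.Ψ a)

/-- typical sets -/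
def Typ (I : Finset ι) (V : ι → Finset ι) (b : ι) (S : Finset ι) : Prop :=
  (∃ i ∈ I, i ≠ b ∧ V i ⊆ S) ∧ ∃ i ∈ I, i ≠ b ∧ Disjoint (V i) S

variable [DecidableEq ι]

/-- The local sets of two families. -/
def Vu (A C : ι → Finset ι) (a : ι) : Finset ι := insert a (A a ∪ C a)

/-- The local sets enlarged by a type. -/
def Vt (V : ι → Finset ι) (t : TyD ι H) (a : ι) : Finset ι := V a ∪ (t.Φ a ∪ t.Ψ a)

/-- `a ∈ S`, `A a` avoids `S`, `C a` is inside `S`. -/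
def XX (I : Finset ι) (A C : ι → Finset ι) (S : Finset ι) : Finset ι :=
  I.filter fun a => a ∈ S ∧ Disjoint (A a) S ∧ C a ⊆ S

variable [Fintype ι]

/-- The pairs `(S, a)` with `a ∈ XX S`. -/
def Prs (I : Finset ι) (A C : ι → Finset ι) : Finset (Finset ι × ι) :=
  univ.filter fun p => p.2 ∈ XX I A C p.1

/-- The triples `(S, a, b)` with `a ∈ XX S`, `b ∈ XX Sᶜ`. -/
def Tri (I : Finset ι) (A C : ι → Finset ι) : Finset (Finset ι × ι × ι) :=
  univ.filter fun p => p.2.1 ∈ XX I A C p.1 ∧ p.2.2 ∈ XX I A C p.1ᶜ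

variable [AddCommGroup H]

open Classical in
/-- The indices `c` with a compatible exchange of `a` and `c`. -/
noncomputable def EE (e : ι → H) (I : Finset ι) (A C : ι → Finset ι) (S : Finset ι) (a : ι) :
    Finset ι :=
  I.filter fun c => c ≠ a ∧ ∃ p ∈ Fam e a c, S ∈ Cmp a c p ∧ Disjoint p.1 (A c) ∧
    Disjoint p.2 (C c)

end

end Pool.Agent.Work.MP_2a6590_nt.H97B
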