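import Pool.Agent.Work.MP_2a6590_nt.H97B.Defs

/-!
# MP_2a6590_nt, block B: statements
-/

namespace Pool.Agent.Work.MP_2a6590_nt.H97B

open Finset Pool.Agent.Work.MP_2a6590_nt.H97

/-- Sunflower lemma for indexed families. -/
def S_sun : Prop := ∀ k M : ℕ, ∃ K : ℕ, ∀ (α β : Type) [DecidableEq α] [DecidableEq β]
  (J : Finset α) (U : α → Finset β), (∀ c ∈ J, (U c).card ≤ k) → K < J.card →
  ∃ J' ⊆ J, M ≤ J'.card ∧ ∃ Z : Finset β, (∀ c ∈ J', Z ⊆ U c) ∧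
    ∀ c ∈ J', ∀ d ∈ J', c ≠ d → U c ∩ U d = Z

/-- Central binomial coefficients are small compared with `4 ^ u`. -/
def S_bin : Prop := ∀ τ : ℚ, 0 < τ → ∃ u₀ : ℕ, ∀ u : ℕ, u₀ < u →
  ((2 * u).choose u : ℚ) ≤ 4 ^ u * τ

open Classical in
/-- Few atypical sets. -/
def S_atyp : Prop := ∀ (s : ℕ) (η : ℝ), 0 < η → ∃ M : ℕ, ∀ (ι : Type) [Fintype ι]
  [DecidableEq ι] (I : Finset ι) (V : ι → Finset ι) (b : ι), Loc I V s → M ≤ I.card →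
  ((univ.filter fun S : Finset ι => ¬ Typ I V b S).card : ℝ) ≤ η * 2 ^ Fintype.card ι

/-- Two types. -/
def S_conf : Prop := ∀ (ι H : Type) [Fintype ι] [DecidableEq ι] [AddCommGroup H] (e : ι → H)
  (N : ℕ), Sys e N → ∀ (I : Finset ι) (V : ι → Finset ι) (s : ℕ), Loc I V s → 2 ≤ I.card →
  ∀ t t' : TyD ι H, IsTy e I V t → IsTy e I V t' → (∀ a ∈ I, Disjoint (t.Ψ a) (t'.Φ a)) →
  (∀ a ∈ I, t.Φ a = t'.Φ a ∧ t.Ψ a = t'.Ψ a) ∨ (∀ a ∈ I, ¬ Disjoint (t.Φ a) (t'.Ψ a))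

/-- The basic count. -/
def S_cnt : Prop := ∀ (ι H : Type) [Fintype ι] [DecidableEq ι] [AddCommGroup H] (e : ι → H)
  (N : ℕ), Sys e N → ∀ (I : Finset ι) (V : ι → Finset ι) (s : ℕ), Loc I V s →
  ∀ (r : ℕ) (T : ℕ → TyD ι H), (∀ j < r, IsTy e I V (T j)) →
  (∀ j < r, ∀ j' < r, j ≠ j' → TLt I (T j) (T j') ∨ TLt I (T j') (T j)) →
  ∀ b ∈ I, ∀ F : ℕ → Finset (Finset ι),
  (∀ j < r, ∀ S ∈ F j, Typ I V b S ∧ ¬ MM e ((T j).c + sg e S - e b)) →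
  2 ^ (Fintype.card ι - 1) + ∑ j ∈ range r, (F j).card ≤ N

/-- First reason for being new. -/
def S_regI : Prop := ∀ (ι H : Type) [Fintype ι] [DecidableEq ι] [AddCommGroup H] (e : ι → H)
  (N : ℕ), Sys e N → ∀ (I : Finset ι) (V : ι → Finset ι) (t : TyD ι H), IsTy e I V t →
  ∀ b ∈ I, ∀ S : Finset ι, b ∉ S → Disjoint (t.Ψ b) S → ¬ t.Φ b ⊆ S →
  ¬ MM e (t.c + sg e S - e b)

/-- Second reason for being new. -/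
def S_regII : Prop := ∀ (ι H : Type) [Fintype ι] [DecidableEq ι] [AddCommGroup H] (e : ι → H)
  (N : ℕ), Sys e N → ∀ (I : Finset ι) (V : ι → Finset ι) (s : ℕ), Loc I V s →
  ∀ t k : TyD ι H, IsTy e I V t → IsTy e I V k → TLt I t k → ∀ b ∈ I, ∀ S : Finset ι,
  b ∉ S → k.Φ b ⊆ S → Disjoint (k.Ψ b) S → (∃ i ∈ I, i ≠ b ∧ Disjoint (V i) S) →
  ¬ MM e (t.c + sg e S - e b)

/-- The total count. The weight of a type is `2 ^ (-ψ-2)` or `2 ^ (-1-φ(k)-ψ(k))` where `k` is a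
larger type. -/
def S_tot : Prop := ∀ (s : ℕ) (η : ℝ), 0 < η → ∃ M : ℕ, ∀ (ι H : Type) [Fintype ι]
  [DecidableEq ι] [AddCommGroup H] (e : ι → H) (N : ℕ), Sys e N → ∀ (I : Finset ι)
  (V : ι → Finset ι), Loc I V s → M ≤ I.card → ∀ (r : ℕ) (T : ℕ → TyD ι H),
  (∀ j < r, IsTy e I V (T j)) →
  (∀ j < r, ∀ j' < r, j ≠ j' → TLt I (T j) (T j') ∨ TLt I (T j') (T j)) →
  ∀ w : ℕ → ℝ, (∀ j < r, ((T j).φ ≠ 0 ∧ w j ≤ 1 / 2 ^ ((T j).ψ + 2)) ∨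
    ∃ k : TyD ι H, IsTy e I V k ∧ TLt I (T j) k ∧ w j ≤ 1 / 2 ^ (1 + k.φ + k.ψ)) →
  2 ^ Fintype.card ι * (1 / 2 + ∑ j ∈ range r, w j - r * η) ≤ (N : ℝ)

/-- The number of sets with a large exchange. -/
def S_large : Prop := ∀ τ : ℝ, 0 < τ → ∃ u₀ : ℕ, ∀ (ι H : Type) [Fintype ι] [DecidableEq ι]
  [AddCommGroup H] (e : ι → H) (N : ℕ), Sys e N → ∀ a c : ι, a ≠ c →
  ((((Fam e a c).filter fun p => u₀ < p.1.card).biUnion (Cmp a c)).card : ℝ) ≤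
    τ * 2 ^ Fintype.card ι

/-- Many small exchanges give a type. -/
def S_extr : Prop := ∀ s u M : ℕ, ∃ K : ℕ, ∀ (ι H : Type) [Fintype ι] [DecidableEq ι]
  [AddCommGroup H] (e : ι → H) (N : ℕ), Sys e N → ∀ (I : Finset ι) (A C : ι → Finset ι),
  Loc I (Vu A C) s → ∀ (a : ι) (J : Finset ι), J ⊆ I → K < J.card →
  (∀ c ∈ J, c ≠ a ∧ ∃ p ∈ Fam e a c, p.1.card ≤ u ∧ Disjoint p.1 (A c) ∧ Disjoint p.2 (C c)) →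
  ∃ I₁ ⊆ J, M ≤ I₁.card ∧ ∃ t : TyD ι H, t.φ ≤ u ∧ t.ψ ≤ u ∧ IsTy e I₁ (Vt (Vu A C) t) t ∧
    (∀ c ∈ I₁, Disjoint (t.Φ c) (C c) ∧ Disjoint (t.Ψ c) (A c)) ∧
    Loc I₁ (Vt (Vu A C) t) (s + 2 * u)

/-- The sizes of the sets of pairs and triples. -/
def S_tri : Prop := ∀ (ι : Type) [Fintype ι] [DecidableEq ι] (I : Finset ι)
  (A C : ι → Finset ι) (s : ℕ), Loc I (Vu A C) s →
  (∀ a ∈ I, a ∉ A a ∧ a ∉ C a ∧ Disjoint (A a) (C a)) →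
  (Prs I A C).card ≤ I.card * 2 ^ Fintype.card ι ∧
  (Tri I A C).card ≤ I.card ^ 2 * 2 ^ Fintype.card ι ∧
  I.card * (I.card - 1) * 2 ^ Fintype.card ι ≤ 4 ^ s * (Tri I A C).card

/-- The weighted double count. -/
def S_wt : Prop := ∀ (ι H : Type) [Fintype ι] [DecidableEq ι] [AddCommGroup H] (e : ι → H)
  (N : ℕ), Sys e N → ∀ (I : Finset ι) (A C : ι → Finset ι),
  (∀ a ∈ I, a ∉ A a ∧ a ∉ C a ∧ Disjoint (A a) (C a)) → ∀ W E : ℝ, 0 < W →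
  ∑ p ∈ Prs I A C, ((EE e I A C p.1 p.2).card : ℝ) ≤ E →
  2 * ((Tri I A C).card - E) / W - (2 * (Tri I A C).card + 2 * I.card * E) / W ^ 2 ≤
    2 * I.card * ((N : ℝ) - 2 ^ Fintype.card ι / 2)

/-- **Local type lemma.** -/
def S_lcl : Prop := ∀ s : ℕ, ∃ s' : ℕ, ∀ M : ℕ, ∃ M' : ℕ, ∀ (ι H : Type) [Fintype ι]
  [DecidableEq ι] [AddCommGroup H] (e : ι → H) (N : ℕ), Sys e N → N ≤ 2 ^ Fintype.card ι →
  ∀ (I : Finset ι) (A C : ι → Finset ι), Loc I (Vu A C) s →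
  (∀ a ∈ I, a ∉ A a ∧ a ∉ C a ∧ Disjoint (A a) (C a)) → M' ≤ I.card →
  ∃ I₁ ⊆ I, M ≤ I₁.card ∧ ∃ t : TyD ι H, t.φ + t.ψ ≤ s' ∧ IsTy e I₁ (Vt (Vu A C) t) t ∧
    (∀ c ∈ I₁, Disjoint (t.Φ c) (C c) ∧ Disjoint (t.Ψ c) (A c)) ∧
    Loc I₁ (Vt (Vu A C) t) (s + s')

/-- **Descent.** -/
def S_desc : Prop := ∀ s : ℕ, ∃ s' : ℕ, ∀ M : ℕ, ∃ M' : ℕ, ∀ (ι H : Type) [Fintype ι]
  [DecidableEq ι] [AddCommGroup H] (e : ι → H) (N : ℕ), Sys e N → N ≤ 2 ^ Fintype.card ι →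
  ∀ (I : Finset ι) (V Y : ι → Finset ι), Loc I V s → (∀ a ∈ I, Y a ⊆ V a ∧ a ∉ Y a) →
  M' ≤ I.card →
  ∃ I₁ ⊆ I, M ≤ I₁.card ∧ ∃ V₁ : ι → Finset ι, (∀ a ∈ I₁, V a ⊆ V₁ a) ∧ Loc I₁ V₁ s' ∧
    ∃ t : TyD ι H, IsTy e I₁ V₁ t ∧ ∀ a ∈ I₁, t.Ψ a ⊆ Y a ∧ Disjoint (t.Φ a) (Y a)

/-- The system of a valid set. -/
def S_sys : Prop := ∀ (N : ℕ), 1 ≤ N → ∀ A : Finset (ZMod N),
  Vd (fun a : A => (a : ZMod N)) → Sys (fun a : A => ((1 : ℤ), (a : ZMod N))) N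

/-- **Main estimate.** -/
def S_main : Prop := ∀ ε : ℝ, 0 < ε → ∃ n₀ : ℕ, ∀ (ι H : Type) [Fintype ι] [DecidableEq ι]
  [AddCommGroup H] (e : ι → H) (N : ℕ), Sys e N → n₀ ≤ Fintype.card ι →
  (1 - ε) * 2 ^ Fintype.card ι ≤ (N : ℝ)

end Pool.Agent.Work.MP_2a6590_nt.H97B
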