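import Pool.Agent.Work.MP_2a6590_nt.H97B.Stmts

/-!
# MP_2a6590_nt, block B: auxiliary lemmas
-/

namespace Pool.Agent.Work.MP_2a6590_nt.H97B

open Finset Pool.Agent.Work.MP_2a6590_nt.H97

variable {ι H : Type} [Fintype ι] [DecidableEq ι] [AddCommGroup H] {e : ι → H} {N : ℕ}

omit [DecidableEq ι] in
theorem Sys.vd (hS : Sys e N) : Vd e := fun m _ h => hS.uni m h

omit [DecidableEq ι] in
theorem Sys.lenv (hS : Sys e N) {f : H →+ ℤ} (hf : ∀ i, f (e i) = 1) (m : ι → ℕ) :
    f (val e m) = ((∑ i, m i : ℕ) : ℤ) := by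
  unfold H97.val
  rw [map_sum]
  push_cast
  refine Finset.sum_congr rfl fun i _ => ?_
  rw [map_nsmul, hf]
  simp

-- The length of a representation is determined by its value.
omit [DecidableEq ι] in
theorem Sys.card_eq (hS : Sys e N) {m m' : ι → ℕ} (h : val e m = val e m') :
    ∑ i, m i = ∑ i, m' i := by
  obtain ⟨f, hf⟩ := hS.len
  have h1 := hS.lenv hf m
  rw [h, hS.lenv hf m'] at h1
  exact_mod_cast h1.symm

/-- **Uniqueness** of the representation of a sum of distinct elements. -/
theorem Sys.uq (hS : Sys e N) {T : Finset ι} {m : ι → ℕ} (h : val e m = sg e T) : m = ind T := by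
  refine uniq hS.vd T m ?_ h
  rw [← sum_ind T]
  exact hS.card_eq (by rw [h, val_ind])

theorem Sys.inj (hS : Sys e N) {S T : Finset ι} (h : sg e S = sg e T) : S = T := by
  have h1 : ind S = ind T := hS.uq (by rw [val_ind, h])
  refine sg_inj hS.vd ?_ h
  rw [← sum_ind S, ← sum_ind T, h1]

theorem Sys.cardS (hS : Sys e N) {S T : Finset ι} {i j : ι} (h : sg e S + e i = sg e T + e j) :
    S.card = T.card := by
  have h1 := hS.card_eq (m := ind S + un i) (m' := ind T + un j) (by
    rw [val_add, val_add, val_ind, val_ind, val_un, val_un, h])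
  simp only [Pi.add_apply] at h1
  rw [Finset.sum_add_distrib, Finset.sum_add_distrib, sum_ind, sum_ind, sum_un, sum_un] at h1
  omega

/-- A sum of distinct elements has no representation with a repeated element. -/
theorem Sys.le_one (hS : Sys e N) {T : Finset ι} {m : ι → ℕ} (h : val e m = sg e T) (i : ι) :
    m i ≤ 1 := by
  rw [hS.uq h]
  unfold ind
  split_ifs <;> omega

/-- membership in a sum -/
theorem Sys.mem_of (hS : Sys e N) {T : Finset ι} {m : ι → ℕ} (h : val e m = sg e T) {i : ι}
    (hi : 1 ≤ m i) : i ∈ T := by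
  by_contra hcon
  rw [hS.uq h, ind_notMem hcon] at hi
  omega

omit [Fintype ι] in
theorem sg_sdiff (e : ι → H) {S T : Finset ι} (h : T ⊆ S) : sg e S = sg e (S \ T) + sg e T := by
  conv_lhs => rw [← Finset.sdiff_union_of_subset h]
  exact sg_union e Finset.sdiff_disjoint

theorem val_zero (e : ι → H) : val e 0 = 0 := by
  unfold H97.val
  simp

/-- The basic inequality: elements with a repeated summand which are new with respect to `b`. -/
theorem Sys.base (hS : Sys e N) (b : ι) (W : Finset H)
    (hW : ∀ w ∈ W, (∃ m : ι → ℕ, val e m = w ∧ ∃ i, 2 ≤ m i) ∧ ¬ MM e (w - e b)) :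
    2 ^ (Fintype.card ι - 1) + W.card ≤ N := by
  classical
  set W1 : Finset H := (univ.filter fun S : Finset ι => b ∉ S).image (sg e) with hW1
  have hc1 : W1.card = 2 ^ (Fintype.card ι - 1) := by
    rw [hW1, Finset.card_image_of_injOn, card_avoid]
    intro S _ T _ h
    exact hS.inj h
  have hdisj : Disjoint W1 W := by
    rw [Finset.disjoint_left]
    intro w h1 h2
    rw [hW1, Finset.mem_image] at h1
    obtain ⟨T, _, rfl⟩ := h1
    obtain ⟨⟨m, hm, i, hi⟩, _⟩ := hW _ h2
    have := hS.le_one hm i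
    omega
  have h := hS.cnt b (W1 ∪ W) ?_
  · rw [Finset.card_union_of_disjoint hdisj, hc1] at h
    exact h
  · intro w hw
    rw [Finset.mem_union] at hw
    rcases hw with hw | hw
    · rw [hW1, Finset.mem_image] at hw
      obtain ⟨S, hSb, rfl⟩ := hw
      refine ⟨⟨ind S, val_ind e S⟩, ?_⟩
      rintro ⟨m, hm⟩
      have h1 : val e (m + un b) = sg e S := by
        rw [val_add, hm, val_un, sub_add_cancel]
      have h2 := hS.mem_of h1 (i := b) (by rw [Pi.add_apply, un_self]; omega)
      exact (Finset.mem_filter.mp hSb).2 h2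
    · obtain ⟨⟨m, hm, _⟩, h2⟩ := hW w hw
      exact ⟨⟨m, hm⟩, h2⟩

end Pool.Agent.Work.MP_2a6590_nt.H97B
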